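import Pool.Agent.Helper40.MBWin
import Pool.Agent.Helper40.AFAll

/-!
The numbers ww(K_4) and ww(K_4;-) are different.
-/

set_option autoImplicit false

namespace Pool.Agent.Results.MP_d4b800_co.NotEqual

/-- In the alternating edge game on the complete graph with `N` vertices, the player who moves at the
times congruent to `p` modulo two has a strategy (a function of the history, always choosing an
unclaimed edge) such that at the end of every play which follows the strategy the edges claimed at the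
times congruent to `r` modulo two contain all edges of a complete graph on `q` vertices. -/
def CanForce (q N p r : ℕ) : Prop :=
  ∃ σ : List (Sym2 (Fin N)) → Sym2 (Fin N),
    (∀ l : List (Sym2 (Fin N)), l.Nodup → (∀ e ∈ l, ¬ e.IsDiag) →
      (∀ (i : ℕ) (h : i < l.length), i % 2 = p → l[i]'h = σ (l.take i)) →
      l.length % 2 = p → (∃ e : Sym2 (Fin N), ¬ e.IsDiag ∧ e ∉ l) →
      (¬ (σ l).IsDiag ∧ σ l ∉ l)) ∧
    (∀ l : List (Sym2 (Fin N)), l.Nodup → (∀ e ∈ l, ¬ e.IsDiag) →
      (∀ e : Sym2 (Fin N), ¬ e.IsDiag → e ∈ l) →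
      (∀ (i : ℕ) (h : i < l.length), i % 2 = p → l[i]'h = σ (l.take i)) →
      ∃ S : Finset (Fin N), S.card = q ∧
        ∀ a ∈ S, ∀ b ∈ S, a ≠ b → ∃ (i : ℕ) (h : i < l.length), i % 2 = r ∧ l[i]'h = s(a, b))

/-- the first player, as Maker, wins the Maker-Breaker game -/
def MakerWins (q N : ℕ) : Prop := CanForce q N 0 0

/-- one of the two players can force the other player to occupy a complete graph -/
def SomeoneForces (q N : ℕ) : Prop := CanForce q N 0 1 ∨ CanForce q N 1 0

/-- the Weak Win Number is `m` -/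
def IsWW (q m : ℕ) : Prop := IsLeast {M : ℕ | ∀ N : ℕ, M ≤ N → MakerWins q N} m

/-- the Reverse Weak Win Number is `m` -/
def IsReverseWW (q m : ℕ) : Prop := IsLeast {M : ℕ | ∀ N : ℕ, M ≤ N → SomeoneForces q N} m

open Pool.Agent.Helper40.Game Pool.Agent.Helper40.K9

/-- on nine vertices Breaker wins -/
lemma not_makerWins : ¬ MakerWins 4 9 := by
  rintro ⟨σ, h1, h2⟩
  obtain ⟨l, hnd, hE, hall, hc, hT⟩ := exists_play_of_bwin (EE 9) (KT 9 4) mb_root σ (by
    intro l hnd hE hc hl hex
    obtain ⟨e, he, hel⟩ := hex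
    have h3 := h1 l hnd (fun e he => mem_EE.1 (hE e he)) hc hl ⟨e, mem_EE.1 he, hel⟩
    exact ⟨mem_EE.2 h3.1, h3.2⟩)
  obtain ⟨S, hS, hS2⟩ := h2 l hnd (fun e he => mem_EE.1 (hE e he))
    (fun e he => hall e (mem_EE.2 he)) hc
  apply hT
  refine ⟨S, hS, ?_⟩
  intro a ha b hb hab
  obtain ⟨i, hi, hi2, hie⟩ := hS2 a ha b hb hab
  rw [← hie]
  exact mem_cls_of_getElem hnd hi hi2

/-- on at least nine vertices one of the players can force the other one -/
lemma someoneForces (N : ℕ) (hN : 9 ≤ N) : SomeoneForces 4 N := by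
  obtain ⟨p, r, hpr, σ, h1, h2⟩ := win_all N hN
  have key : CanForce 4 N p r := by
    refine ⟨σ, ?_, ?_⟩
    · intro l hnd hE hc hl hex
      obtain ⟨e, he, hel⟩ := hex
      have h3 := h1 l hnd (fun e he => mem_EE.2 (hE e he)) hc hl ⟨e, mem_EE.2 he, hel⟩
      exact ⟨mem_EE.1 h3.1, h3.2⟩
    · intro l hnd hE hall hc
      obtain ⟨S, hS, hS2⟩ := h2 l hnd (fun e he => mem_EE.2 (hE e he))
        (fun e he => hall e (mem_EE.1 he)) hc
      refine ⟨S, hS, ?_⟩
      intro a ha b hb hab
      exact exists_of_mem_cls (hS2 a ha b hb hab)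
  rcases hpr with ⟨rfl, rfl⟩ | ⟨rfl, rfl⟩
  · exact Or.inl key
  · exact Or.inr key

/-- The Weak Win Number of the complete graph on four vertices is at least ten, while its Reverse
Weak Win Number exists and is at most nine; in particular the two numbers are different. -/
theorem result :
    (¬ MakerWins 4 9) ∧ (∀ N : ℕ, 9 ≤ N → SomeoneForces 4 N) ∧
    (∀ m : ℕ, IsWW 4 m → 10 ≤ m) ∧ (∃ m : ℕ, m ≤ 9 ∧ IsReverseWW 4 m) ∧
    (∀ m m' : ℕ, IsWW 4 m → IsReverseWW 4 m' → m' < m) := by
  have h1 : ∀ m : ℕ, IsWW 4 m → 10 ≤ m := by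
    intro m hm
    by_contra h
    exact not_makerWins (hm.1 9 (by omega))
  have h9 : (9 : ℕ) ∈ {M : ℕ | ∀ N : ℕ, M ≤ N → SomeoneForces 4 N} :=
    fun N hN => someoneForces N hN
  refine ⟨not_makerWins, someoneForces, h1, ?_, ?_⟩
  · classical
    have hex : ∃ M : ℕ, ∀ N : ℕ, M ≤ N → SomeoneForces 4 N := ⟨9, h9⟩
    refine ⟨Nat.find hex, Nat.find_min' hex h9, Nat.find_spec hex, ?_⟩
    intro M hM
    exact Nat.find_min' hex hM
  · intro m m' hm hm'
    have := h1 m hm
    have := hm'.2 h9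
    omega

end Pool.Agent.Results.MP_d4b800_co.NotEqual
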